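import Pool.Agent.U536.CF.Tw
import Pool.Agent.Results.MP_29be01_nt.ReflectedBoxes

/-!
# Consecutive Frobenius angles for all twists near integers with a large common factor with a value of a multiplicative
function

Let `f` be a positive multiplicative function of at most polynomial growth such that `f p ≤ M p` for the large primes `p`,
with different values at different large primes; for example Euler's function or the sum of the divisors. Let `G` have
steps bounded below by a positive constant and growth at most `v^d`, for example `α v^d`. Let `ε > 0`, `b < 1` and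
`0 ≤ c' < 2 b - 1`. There are `C` and `c > 0`, which depend only on `s` and `ε`, such that for all integers `A`, `B`, for all
`m ≤ N` but `N exp (-(log N)^c')`, for EVERY integer `w ≥ exp ((log N)^b)` with `gcd(w, f(m)) ≥ w^ρ` and ALL the quadratic twists
`y² = x³ + A D² x + B D³` of the curve `E : y² = x³ + A x + B`, `D ≠ 0`, `| |D| - G w | ≤ w^κ`, the numbers of the `k < K` for which
the `s` angles at the consecutive primes with the numbers `k, …, k + s - 1` are in a box are, for all `K` between `(log |D|)^C` and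
`|D|^c` and all boxes, the means over the `2^s` reflections of the numbers for `E`, with an error `K^(1/2 + ε)`; here `κ ≥ 0` and
`d (1 - c) + κ < ρ ≤ 1`. The integers `w` include all large divisors of `f(m)` and their multiples by small integers; for
Euler's function, the orders of the elements of the group of units modulo `m`.

Proof. Write `m = k u` with `u` squarefree and composed of primes larger than `N^(1/J)`, `J = (log N)^a`, and
`k ≤ exp (4 (log N)^a)`; this is possible for all `m ≤ N` but very few. If `v ∣ f(k) f(u)`, then `v = g v'` with `g ∣ f(k)` and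
`v' ∣ ∏ f(p)`, and the number of such `u ≤ N / k` is at most `N / (k v')` times `(log N)^O(J)` times the number `τ_J(v')` of the
ordered factorizations of `v'` into `J` factors. The inequality `τ_J^q ≤ τ_K` for `K ≥ J^q` and Hölder's inequality bound
the sum over the sparse set of the exceptional `v`. The law for almost all twists `|D| ≤ N`, with at most `N^(1 - c)` exceptions, is the theorem
`ReflectedBoxes` of this page in the starting library; the large divisors of the values of multiplicative functions form a set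
of density zero and are taken with very large multiplicities, and so the theorem does not follow from that count alone.
-/

set_option autoImplicit false

namespace Pool.Agent.Results.MP_29be01_nt.CommonFactors

open Pool.Agent.N733.TG (LM Expanding lm_totient lm_sigma expanding_pow)
open Pool.Agent.U536.CF (Common common_range common_of_dvd common_order)
open Pool.Agent.W406.TW (cons refl)

/-- **Consecutive Frobenius angles for all twists near integers with a large common factor with a value of a multiplicative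
function.** `cons A B R K` is the number of the `k < K` for which the angles of the curve `y² = x³ + A x + B` at the consecutive
primes `p_k, …, p_{k+s-1}` (`p_0 = 2`) lie in `R 0, …, R (s - 1)`; `refl J R` is the box `R` with the coordinates in `J` reflected at
`1/2`. For every `s` and `ε > 0` there are `C` and `0 < c < 1` such that the following holds. Let `f` be multiplicative and
positive, of at most polynomial growth, with `f p ≤ M p` at the large primes, and injective there. Let `G` have steps `≥ a > 0`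
and growth at most `v^d`. Let `b < 1` and `0 ≤ c' < 2 b - 1`, `κ ≥ 0` and `d (1 - c) + κ < ρ ≤ 1`. For all large `N` and all
integers `A`, `B`, for all `m ≤ N` but `N exp (-(log N)^c')`, for EVERY integer `w ≥ exp ((log N)^b)` with `gcd(w, f(m)) ≥ w^ρ`,
ALL integers `D ≠ 0` with `| |D| - G w | ≤ w^κ`, all `K` between `(log |D|)^C` and `|D|^c` and all boxes `R` of intervals, the number
`cons` of the twist `y² = x³ + A D² x + B D³` is the mean of the numbers of the curve for the `2^s` reflected boxes, with an error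
of at most `K^(1/2 + ε)`.
All divisors `w ≥ exp ((log N)^b)` of `f(m)` are such integers `w`, and for Euler's function the orders
`≥ exp ((log N)^b)` of the units modulo `m`. Euler's function and the sum of the divisors are examples of `f`, and `α v^d` with
`α > 0`, `d ≥ 1` is an example of `G`. -/
theorem result :
    (∀ (s : ℕ) (ε : ℝ), 0 < ε → ∃ C c : ℝ, 0 < C ∧ 0 < c ∧ c < 1 ∧ ∀ f : ℕ → ℕ, LM f → ∀ (G : ℕ → ℝ) (d : ℝ), Expanding G d →
      ∀ κ ρ b c' : ℝ, 0 ≤ κ → d * (1 - c) + κ < ρ → ρ ≤ 1 → b < 1 → 0 ≤ c' → c' < 2 * b - 1 → ∃ N₀ : ℕ, ∀ N : ℕ, N₀ ≤ N →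
      ∀ A B : ℤ, ({m : ℕ | 1 ≤ m ∧ m ≤ N ∧ ¬ ∀ w : ℕ, Common f b ρ N m w →
        ∀ D : ℤ, D ≠ 0 → |(|D| : ℝ) - G w| ≤ (w : ℝ) ^ κ →
        ∀ K : ℕ, (Real.log |(D : ℝ)|) ^ C ≤ K → (K : ℝ) ≤ |(D : ℝ)| ^ c → ∀ R : Fin s → Set ℝ, (∀ i, (R i).OrdConnected) →
          |(cons (A * D ^ 2) (B * D ^ 3) R K : ℝ) - (1 / 2 ^ s) * ∑ J : Finset (Fin s), (cons A B (refl J R) K : ℝ)| ≤
            (K : ℝ) ^ (1 / 2 + ε)}.ncard : ℝ) ≤ N * Real.exp (-(Real.log N ^ c'))) ∧
    (LM Nat.totient ∧ LM (fun m => ∑ d ∈ m.divisors, d)) ∧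
    (∀ α d : ℝ, 0 < α → 1 ≤ d → Expanding (fun v => α * (v : ℝ) ^ d) d) ∧
    (∀ (f : ℕ → ℕ) (b ρ : ℝ) (N m w : ℕ), ρ ≤ 1 → Real.exp (Real.log N ^ b) ≤ (w : ℝ) → w ∣ f m → Common f b ρ N m w) ∧
    ∀ (b ρ : ℝ) (N m : ℕ), ρ ≤ 1 → ∀ x : (ZMod m)ˣ, Real.exp (Real.log N ^ b) ≤ (orderOf x : ℝ) →
      Common Nat.totient b ρ N m (orderOf x) := by
  refine ⟨?_, ⟨lm_totient, lm_sigma⟩, fun α d hα hd => expanding_pow hα hd, fun f b ρ N m w hρ hw hd => common_of_dvd hρ hw hd,
    fun b ρ N m hρ x hx => common_order hρ x hx⟩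
  intro s ε hε
  obtain ⟨C, c, hC, hc, N₀, h⟩ := ReflectedBoxes.result s ε hε
  obtain ⟨c₁, hc₁⟩ : ∃ c₁, c₁ = min c (1 / 2) := ⟨_, rfl⟩
  have hc₁0 : 0 < c₁ := by rw [hc₁]; exact lt_min hc (by norm_num)
  have hc₁c : c₁ ≤ c := by rw [hc₁]; exact min_le_left _ _
  have hc₁1 : c₁ < 1 := by
    have : c₁ ≤ 1 / 2 := by rw [hc₁]; exact min_le_right _ _
    linarith
  refine ⟨C + 1, c₁, by linarith, hc₁0, hc₁1, fun f hf G d hG κ ρ b c' hκ h1 hρ hb hc0 hcb => ?_⟩
  obtain ⟨N₁, hN₁⟩ := common_range hC hc₁0 hc₁1 (max N₀ 1) hf hG hκ h1 hρ hb hc0 hcb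
  refine ⟨N₁, fun N hN A B => ?_⟩
  have key := hN₁ (fun D x => ∃ R : Fin s → Set ℝ, (∀ i, (R i).OrdConnected) ∧
      (x : ℝ) ^ (1 / 2 + ε) < |(cons (A * D ^ 2) (B * D ^ 3) R x : ℝ) -
        (1 / 2 ^ s) * ∑ J : Finset (Fin s), (cons A B (refl J R) x : ℝ)|)
    (fun M hM => ?_) N hN
  · refine le_trans (le_of_eq ?_) key
    congr 2
    ext m
    simp only [Set.mem_ofPred_eq]
    push Not
    rfl
  · have hM1 : (1 : ℝ) ≤ M := by exact_mod_cast (le_max_right N₀ 1).trans hM
    have hfin : {D : ℤ | D ≠ 0 ∧ |D| ≤ M ∧ ∃ x : ℕ, (Real.log M) ^ C ≤ x ∧ (x : ℝ) ≤ (M : ℝ) ^ c ∧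
        ∃ R : Fin s → Set ℝ, (∀ i, (R i).OrdConnected) ∧
          (x : ℝ) ^ (1 / 2 + ε) < |(cons (A * D ^ 2) (B * D ^ 3) R x : ℝ) -
            (1 / 2 ^ s) * ∑ J : Finset (Fin s), (cons A B (refl J R) x : ℝ)|}.Finite := by
      apply (Set.finite_Icc (-(M : ℤ)) (M : ℤ)).subset
      rintro x ⟨_, hx, _⟩
      exact abs_le.1 hx
    refine le_trans (Nat.cast_le.2 (Set.ncard_le_ncard ?_ hfin)) ((h M ((le_max_left N₀ 1).trans hM) A B).trans
      (Real.rpow_le_rpow_of_exponent_le hM1 (by linarith)))
    rintro D ⟨g1, g2, x, g3, g4, g5⟩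
    exact ⟨g1, g2, x, g3, g4.trans (Real.rpow_le_rpow_of_exponent_le hM1 hc₁c), g5⟩

end Pool.Agent.Results.MP_29be01_nt.CommonFactors
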