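import Pool.Agent.U536.DS.Tw
import Pool.Agent.Results.MP_29be01_nt.ReflectedBoxes

/-!
# Consecutive Frobenius angles for all twists near the integral combinations of two divisors of a value of a multiplicative
function

Let `f` be a positive multiplicative function of at most polynomial growth such that `f p ≤ M p` for the large primes `p`,
with different values at different large primes; for example Euler's function or the sum of the divisors. Let `G` have steps
bounded below by a positive constant and growth at most `v^d`, for example `α v^d`. Let `ε > 0`, `b < 1` and `0 ≤ c' < 2 b -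
1`. There are `C` and `c > 0`, which depend only on `s` and `ε`, such that for all integers `A`, `B`, for all `m ≤ N` but `N
exp (-(log N)^c')`, for EVERY integer `w ≥ exp ((log N)^b)` of the form `w = u s + v t` with divisors `s`, `t` of `f(m)` and
integers `|u|, |v| ≤ exp ((log N)^θ)` and ALL the quadratic twists `y² = x³ + A D² x + B D³` of the curve `E : y² = x³ + A x
+ B`, `D ≠ 0`, `| |D| - G w | ≤ w^κ`, the numbers of the `k < K` for which the `s` angles at the consecutive primes with the
numbers `k, …, k + s - 1` are in a box are, for all `K` between `(log |D|)^C` and `|D|^c` and all boxes, the means over the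
`2^s` reflections of the numbers for `E`, with an error `K^(1/2 + ε)`; here `κ ≥ 0` and `d (1 - c) + κ < 1`, `θ < b`. The
integers `w` include all large divisors of `f(m)` and the large sums and differences of ANY two divisors of `f(m)`; for
Euler's function, those of the orders of any two units modulo `m`.

Proof. Write `m = k u` with `u` squarefree and composed of primes larger than `N^(1/J)`, `J = (log N)^a`, and `k ≤ exp (4
(log N)^a)`; this is possible for all `m ≤ N` but very few. If `v ∣ f(k) f(u)`, then `v = g v'` with `g ∣ f(k)` and `v' ∣ ∏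
f(p)`, and the number of such `u ≤ N / k` is at most `N / (k v')` times `(log N)^O(J)` times the number `τ_J(v')` of the
ordered factorizations of `v'` into `J` factors. Take for `v` the least common multiple of `s` and `t`: the sum of `1 / [s,
t]` over the pairs `s, t ≤ X` with `u s + v t = w` is at most `4 U (1 + log X) τ(w) / w` if `|u|, |v| ≤ U`; the inequality
`τ_J^q ≤ τ_K` for `K ≥ J^q` and Hölder's inequality bound the sum over the pairs with exceptional `w`. The integers of the
hand-in `CommonFactors` of this page have a large common factor with `f(m)`; the sums and differences of two divisors of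
`f(m)` have in general none. The law for almost all twists `|D| ≤ N`, with at most `N^(1 - c)` exceptions, is the theorem
`ReflectedBoxes` of this page in the starting library; the pairs of divisors of the `f(m)` are far more numerous than the
`m`, and so the theorem does not follow from that count alone.
-/

set_option autoImplicit false

namespace Pool.Agent.Results.MP_29be01_nt.DivisorSums

open Pool.Agent.N733.TG (LM Expanding lm_totient lm_sigma expanding_pow)
open Pool.Agent.U536.DS (Comb comb_range comb_pm comb_orders)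
open Pool.Agent.W406.TW (cons refl)

/-- **Consecutive Frobenius angles for all twists near the integral combinations of two divisors of a value of a multiplicative
function.** `cons A B R K` is the number of the `k < K` for which the angles of the curve `y² = x³ + A x + B` at the
consecutive primes `p_k, …, p_{k+s-1}` (`p_0 = 2`) lie in `R 0, …, R (s - 1)`; `refl J R` is the box `R` with the
coordinates in `J` reflected at `1/2`. For every `s` and `ε > 0` there are `C` and `0 < c < 1` such that the following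
holds. Let `f` be multiplicative and positive, of at most polynomial growth, with `f p ≤ M p` at the large primes, and
injective there. Let `G` have steps `≥ a > 0` and growth at most `v^d`. Let `b < 1` and `0 ≤ c' < 2 b - 1`, `κ ≥ 0` and `d
(1 - c) + κ < 1`, `θ < b`. For all large `N` and all integers `A`, `B`, for all `m ≤ N` but `N exp (-(log N)^c')`, for EVERY
integer `w ≥ exp ((log N)^b)` of the form `w = u s + v t` with divisors `s`, `t` of `f(m)` and integers `|u|, |v| ≤ exp
((log N)^θ)`, ALL integers `D ≠ 0` with `| |D| - G w | ≤ w^κ`, all `K` between `(log |D|)^C` and `|D|^c` and all boxes `R`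
of intervals, the number `cons` of the twist `y² = x³ + A D² x + B D³` is the mean of the numbers of the curve for the `2^s`
reflected boxes, with an error of at most `K^(1/2 + ε)`. All the sums and differences `≥ exp ((log N)^b)` of two divisors of
`f(m)` are such integers `w`, and for Euler's function those of the orders of two units modulo `m`. Euler's function and the
sum of the divisors are examples of `f`, and `α v^d` with `α > 0`, `d ≥ 1` is an example of `G`. -/
theorem result :
    (∀ (s : ℕ) (ε : ℝ), 0 < ε → ∃ C c : ℝ, 0 < C ∧ 0 < c ∧ c < 1 ∧ ∀ f : ℕ → ℕ, LM f → ∀ (G : ℕ → ℝ) (d : ℝ), Expanding G d →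
      ∀ κ θ b c' : ℝ, 0 ≤ κ → d * (1 - c) + κ < 1 → θ < b → b < 1 → 0 ≤ c' → c' < 2 * b - 1 → ∃ N₀ : ℕ, ∀ N : ℕ, N₀ ≤ N →
      ∀ A B : ℤ, ({m : ℕ | 1 ≤ m ∧ m ≤ N ∧ ¬ ∀ w : ℕ, Comb f b θ N m w →
        ∀ D : ℤ, D ≠ 0 → |(|D| : ℝ) - G w| ≤ (w : ℝ) ^ κ →
        ∀ K : ℕ, (Real.log |(D : ℝ)|) ^ C ≤ K → (K : ℝ) ≤ |(D : ℝ)| ^ c → ∀ R : Fin s → Set ℝ, (∀ i, (R i).OrdConnected) →
          |(cons (A * D ^ 2) (B * D ^ 3) R K : ℝ) - (1 / 2 ^ s) * ∑ J : Finset (Fin s), (cons A B (refl J R) K : ℝ)| ≤
            (K : ℝ) ^ (1 / 2 + ε)}.ncard : ℝ) ≤ N * Real.exp (-(Real.log N ^ c'))) ∧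
    (LM Nat.totient ∧ LM (fun m => ∑ d ∈ m.divisors, d)) ∧
    (∀ α d : ℝ, 0 < α → 1 ≤ d → Expanding (fun v => α * (v : ℝ) ^ d) d) ∧
    (∀ (f : ℕ → ℕ) (b θ : ℝ) (N m s t : ℕ), s ∣ f m → t ∣ f m →
      (Real.exp (Real.log N ^ b) ≤ ((s + t : ℕ) : ℝ) → Comb f b θ N m (s + t)) ∧
      (Real.exp (Real.log N ^ b) ≤ ((s - t : ℕ) : ℝ) → Comb f b θ N m (s - t)) ∧
      (Real.exp (Real.log N ^ b) ≤ (s : ℝ) → Comb f b θ N m s)) ∧
    ∀ (b θ : ℝ) (N m : ℕ) (x y : (ZMod m)ˣ),
      (Real.exp (Real.log N ^ b) ≤ ((orderOf x + orderOf y : ℕ) : ℝ) → Comb Nat.totient b θ N m (orderOf x + orderOf y)) ∧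
      (Real.exp (Real.log N ^ b) ≤ ((orderOf x - orderOf y : ℕ) : ℝ) → Comb Nat.totient b θ N m (orderOf x - orderOf y)) := by
  refine ⟨?_, ⟨lm_totient, lm_sigma⟩, fun α d hα hd => expanding_pow hα hd, fun f b θ N m s t hs ht => comb_pm hs ht,
    fun b θ N m x y => comb_orders x y⟩
  intro s ε hε
  obtain ⟨C, c, hC, hc, N₀, h⟩ := ReflectedBoxes.result s ε hε
  obtain ⟨c₁, hc₁⟩ : ∃ c₁, c₁ = min c (1 / 2) := ⟨_, rfl⟩
  have hc₁0 : 0 < c₁ := by rw [hc₁]; exact lt_min hc (by norm_num)
  have hc₁c : c₁ ≤ c := by rw [hc₁]; exact min_le_left _ _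
  have hc₁1 : c₁ < 1 := by
    have : c₁ ≤ 1 / 2 := by rw [hc₁]; exact min_le_right _ _
    linarith
  refine ⟨C + 1, c₁, by linarith, hc₁0, hc₁1, fun f hf G d hG κ θ b c' hκ h1 hθ hb hc0 hcb => ?_⟩
  obtain ⟨N₁, hN₁⟩ := comb_range hC hc₁0 hc₁1 (max N₀ 1) hf hG hκ h1 hθ hb hc0 hcb
  refine ⟨N₁, fun N hN A B => ?_⟩
  have key := hN₁ (fun D x => ∃ R : Fin s → Set ℝ, (∀ i, (R i).OrdConnected) ∧
      (x : ℝ) ^ (1 / 2 + ε) < |(cons (A * D ^ 2) (B * D ^ 3) R x : ℝ) -
        (1 / 2 ^ s) * ∑ J : Finset (Fin s), (cons A B (refl J R) x : ℝ)|)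
    (fun M hM => ?_) N hN
  · refine le_trans (le_of_eq ?_) key
    congr 2
    ext m
    simp only [Set.mem_ofPred_eq]
    push Not
    rfl
  · have hM1 : (1 : ℝ) ≤ M := by exact_mod_cast (le_max_right N₀ 1).trans hM
    have hfin : {D : ℤ | D ≠ 0 ∧ |D| ≤ M ∧ ∃ x : ℕ, (Real.log M) ^ C ≤ x ∧ (x : ℝ) ≤ (M : ℝ) ^ c ∧
        ∃ R : Fin s → Set ℝ, (∀ i, (R i).OrdConnected) ∧
          (x : ℝ) ^ (1 / 2 + ε) < |(cons (A * D ^ 2) (B * D ^ 3) R x : ℝ) -
            (1 / 2 ^ s) * ∑ J : Finset (Fin s), (cons A B (refl J R) x : ℝ)|}.Finite := by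
      apply (Set.finite_Icc (-(M : ℤ)) (M : ℤ)).subset
      rintro x ⟨_, hx, _⟩
      exact abs_le.1 hx
    refine le_trans (Nat.cast_le.2 (Set.ncard_le_ncard ?_ hfin)) ((h M ((le_max_left N₀ 1).trans hM) A B).trans
      (Real.rpow_le_rpow_of_exponent_le hM1 (by linarith)))
    rintro D ⟨g1, g2, x, g3, g4, g5⟩
    exact ⟨g1, g2, x, g3, g4.trans (Real.rpow_le_rpow_of_exponent_le hM1 hc₁c), g5⟩

end Pool.Agent.Results.MP_29be01_nt.DivisorSums
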