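import Pool.Agent.U471.DQ.Boxes

/-!
# The Frobenius angles at `s` consecutive primes: all boxes, for all the curves of a family whose parameters are close to
almost all the values of real polynomials

From Mathlib: `MvPolynomial.eval z A`: the value of the integer polynomial `A` at the integer point `z`;
`Polynomial.eval`, `Polynomial.coeff`, `Polynomial.natDegree`: real polynomials; `Nat.nth Nat.Prime k`: the prime with the
number `k`, starting with `k = 0`; `Set.OrdConnected`: intervals; `IsAlgebraic ℚ`: algebraic numbers.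

Method: Weyl's inequality without losses for all the coefficients at the same time (an inverse theorem, from the starting
files for the top coefficient), a discrete Fejer kernel for the integer parts of several functions, uniform distribution
in residue classes with a power saving, high moments. The passage to all boxes follows the starting files
(`Pool.Agent.TH869.SQ`), where the parameters are all the integers of an interval.
-/

set_option autoImplicit false

namespace Pool.Agent.Results.MP_29be01_nt.RealPolynomialFamilies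

open Finset

/-- The polynomials `f 0, ..., f (r - 1)` are not on major arcs, at the scale `N` and with the parameter `R`: for every
integer vector `l ≠ 0` with all `|l i| ≤ R` there is `1 ≤ j ≤ d` such that the number
`∑ i, l i * (coefficient of f i at X ^ j)` has a distance of more than `R / N ^ j` from all the integers. -/
def Generic {r : ℕ} (d N : ℕ) (R : ℝ) (f : Fin r → Polynomial ℝ) : Prop :=
  ∀ l : Fin r → ℤ, l ≠ 0 → (∀ i, (|l i| : ℝ) ≤ R) → ∃ j : ℕ, 1 ≤ j ∧ j ≤ d ∧
    ∀ b : ℤ, R / (N : ℝ) ^ j < |∑ i, (l i : ℝ) * (f i).coeff j - b|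

/-- `α` has a finite irrationality exponent. -/
def FiniteType (α : ℝ) : Prop := ∃ (w : ℕ) (c : ℝ), 0 < c ∧ ∀ q : ℕ, 1 ≤ q → ∀ a : ℤ, c / (q : ℝ) ^ w ≤ |q * α - a|

/-- The number of the solutions `(x, y)` of `y² = x³ + a x + b` modulo `p`. -/
def points (p : ℕ) (a b : ℤ) : ℕ :=
  ((range p ×ˢ range p).filter (fun xy : ℕ × ℕ => (p : ℤ) ∣ (xy.2 : ℤ) ^ 2 - ((xy.1 : ℤ) ^ 3 + a * xy.1 + b))).card

/-- The Frobenius angle in `[0, 1]` of the curve `y² = x³ + a x + b` at the prime `p`: it is `θ` with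
`2 p ^ (1 / 2) cos (π θ) = p + 1 - #E(F_p) = p - points p a b`, and `1 / 2` if `p ∣ 2 (4 a³ + 27 b²)`. -/
noncomputable def angle (a b : ℤ) (p : ℕ) : ℝ :=
  if (p : ℤ) ∣ 2 * (4 * a ^ 3 + 27 * b ^ 2) then 1 / 2
  else Real.arccos (((p : ℝ) - points p a b) / (2 * Real.sqrt p)) / Real.pi

open Classical in
/-- The number of the `k < K` such that the angles of the curve `y² = x³ + a x + b` at the `s` consecutive primes with the
numbers `k, ..., k + s - 1` (the primes are numbered from `0`) are in `I 0, ..., I (s - 1)`. -/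
noncomputable def boxCount {s : ℕ} (a b : ℤ) (I : Fin s → Set ℝ) (K : ℕ) : ℕ :=
  ((range K).filter (fun k => ∀ i : Fin s, angle a b (Nat.nth Nat.Prime (k + i)) ∈ I i)).card

open Classical in
/-- The proportion of the vectors `ν` of residues modulo `p` for which the angle of `y² = x³ + A(ν) x + B(ν)` at `p` is in
`S`. -/
noncomputable def proportion {r : ℕ} (A B : MvPolynomial (Fin r) ℤ) (p : ℕ) (S : Set ℝ) : ℝ :=
  (((Fintype.piFinset (fun _ : Fin r => range p)).filter (fun ν =>
    angle (MvPolynomial.eval (fun i => (ν i : ℤ)) A) (MvPolynomial.eval (fun i => (ν i : ℤ)) B) p ∈ S)).card : ℝ) / (p : ℝ) ^ r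

/-- The expected number: the sum over `k < K` of the product of the proportions at the `s` primes. -/
noncomputable def boxModel {r s : ℕ} (A B : MvPolynomial (Fin r) ℤ) (I : Fin s → Set ℝ) (K : ℕ) : ℝ :=
  ∑ k ∈ range K, ∏ i : Fin s, proportion A B (Nat.nth Nat.Prime (k + i)) (I i)

lemma points_congr (p : ℕ) {A A' B B' : ℤ} (hA : (p : ℤ) ∣ A - A') (hB : (p : ℤ) ∣ B - B') :
    points p A B = points p A' B' := by
  unfold points
  congr 1
  apply filter_congr
  intro xy _
  have h : (p : ℤ) ∣ ((xy.2 : ℤ) ^ 2 - ((xy.1 : ℤ) ^ 3 + A * xy.1 + B)) -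
      ((xy.2 : ℤ) ^ 2 - ((xy.1 : ℤ) ^ 3 + A' * xy.1 + B')) := by
    have e : ((xy.2 : ℤ) ^ 2 - ((xy.1 : ℤ) ^ 3 + A * xy.1 + B)) -
      ((xy.2 : ℤ) ^ 2 - ((xy.1 : ℤ) ^ 3 + A' * xy.1 + B')) = -((A - A') * xy.1 + (B - B')) := by ring
    rw [e]
    exact (dvd_add (hA.mul_right _) hB).neg_right
  exact (dvd_iff_dvd_of_dvd_sub h)

lemma angle_congr (p : ℕ) {A A' B B' : ℤ} (hA : (p : ℤ) ∣ A - A') (hB : (p : ℤ) ∣ B - B') :
    angle A B p = angle A' B' p := by
  unfold angle
  rw [points_congr p hA hB]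
  have h : (p : ℤ) ∣ 2 * (4 * A ^ 3 + 27 * B ^ 2) - 2 * (4 * A' ^ 3 + 27 * B' ^ 2) := by
    have e : 2 * (4 * A ^ 3 + 27 * B ^ 2) - 2 * (4 * A' ^ 3 + 27 * B' ^ 2) =
      (A - A') * (8 * (A ^ 2 + A * A' + A' ^ 2)) + (B - B') * (54 * (B + B')) := by ring
    rw [e]
    exact dvd_add (hA.mul_right _) (hB.mul_right _)
  have h2 := dvd_iff_dvd_of_dvd_sub h
  by_cases h3 : (p : ℤ) ∣ 2 * (4 * A ^ 3 + 27 * B ^ 2)
  · rw [if_pos h3, if_pos (h2.mp h3)]
  · rw [if_neg h3, if_neg (fun h4 => h3 (h2.mpr h4))]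

/-- **(1)** Let `r`, `d ≥ 1` and `s ≥ 1` be integers and let `δ > 0`. There are `κ > 0` and `C` such that the following holds
for all `N, R ≥ 1`, for all real polynomials `f 0, ..., f (r - 1)` of degree at most `d` which are not on major arcs
(`Generic`) and for ALL families `E_z : y² = x³ + A(z) x + B(z)` of curves with `r` parameters.

All the integers `0 ≤ n < N` with at most `C N R ^ (- κ)` exceptions are such that for ALL integer vectors `z` with all
`|z i - f i (n)| ≤ R ^ κ`, for every `K ≤ R ^ κ` and every product of `s` intervals, the number of the `k < K` such that the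
angles of `E_z` at the `s` consecutive primes with the numbers `k, ..., k + s - 1` are in the intervals differs from the
expected number by at most `C K ^ (1 / 2 + δ) (1 + log R) ^ (1 / 2)`.

**(2)** If for every `i` there is `1 ≤ j ≤ d` such that the coefficient of `f i` at `X ^ j` has a finite irrationality exponent
and the coefficients of the other polynomials at `X ^ j` are zero (for `r = 1`: if a nonconstant coefficient has a finite
irrationality exponent), then (1) applies with `R = N ^ β`, for some `β > 0` and all large `N`. This includes irrational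
algebraic coefficients. -/
theorem result :
    (∀ (r d s : ℕ), 1 ≤ d → 1 ≤ s → ∀ δ : ℝ, 0 < δ → ∃ κ C : ℝ, 0 < κ ∧ 0 < C ∧
      ∀ (N : ℕ) (R : ℝ) (f : Fin r → Polynomial ℝ), 1 ≤ N → 1 ≤ R → (∀ i, (f i).natDegree ≤ d) → Generic d N R f →
      ∀ A B : MvPolynomial (Fin r) ℤ,
      ∃ E : Finset ℕ, (E.card : ℝ) ≤ C * (N * R ^ (-κ)) ∧ ∀ n : ℕ, n < N → n ∉ E →
        ∀ z : Fin r → ℤ, (∀ i, |(z i : ℝ) - (f i).eval (n : ℝ)| ≤ R ^ κ) →
        ∀ K : ℕ, (K : ℝ) ≤ R ^ κ → ∀ I : Fin s → Set ℝ, (∀ i, (I i).OrdConnected) →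
          |(boxCount (MvPolynomial.eval z A) (MvPolynomial.eval z B) I K : ℝ) - boxModel A B I K| ≤
            C * ((K : ℝ) ^ (1 / 2 + δ) * √(1 + Real.log R))) ∧
    (∀ (r d : ℕ) (f : Fin r → Polynomial ℝ),
      (∀ i, ∃ j, 1 ≤ j ∧ j ≤ d ∧ FiniteType ((f i).coeff j) ∧ ∀ i', i' ≠ i → (f i').coeff j = 0) →
      ∃ β : ℝ, 0 < β ∧ ∃ N₀ : ℕ, ∀ N : ℕ, N₀ ≤ N → Generic d N ((N : ℝ) ^ β) f) ∧
    (∀ α : ℝ, Irrational α → IsAlgebraic ℚ α → FiniteType α) := by
  classical
  refine ⟨?_, ?_, fun α h h' => Pool.Agent.U471.DQ.finType_alg h h'⟩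
  · intro r d s hd hs δ hδ
    obtain ⟨κ, C, h1, _, h3, H⟩ := Pool.Agent.U471.DQ.near_consec r d s hd hs δ hδ
    refine ⟨κ, C, h1, by linarith, ?_⟩
    intro N R f hN hR hf hgen A B
    obtain ⟨E, _, hE2, hE3⟩ := H N R f hN hR hf hgen
      (fun p z => angle (MvPolynomial.eval z A) (MvPolynomial.eval z B) p) (by
        intro p u u' hu
        exact angle_congr p (Pool.Agent.U471.DQ.mv_congr A hu) (Pool.Agent.U471.DQ.mv_congr B hu))
    refine ⟨E, hE2, fun n hn hnE z hz K hK I hI => ?_⟩
    have h := hE3 n (mem_range.2 hn) hnE z hz K hK I hI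
    rw [sum_sub_distrib] at h
    have e1 : (boxCount (MvPolynomial.eval z A) (MvPolynomial.eval z B) I K : ℝ) = ∑ k ∈ range K,
        Pool.Agent.TH869.SQ.ind I (fun i : Fin s =>
          angle (MvPolynomial.eval z A) (MvPolynomial.eval z B) (Pool.Agent.TH869.SQ.pr (k + i))) := by
      unfold boxCount Pool.Agent.TH869.SQ.ind Pool.Agent.TH869.SQ.pr
      rw [sum_boole]
    have e2 : boxModel A B I K = ∑ k ∈ range K, ∏ i : Fin s,
        Pool.Agent.U471.DQ.mn (Pool.Agent.TH869.SQ.pr (k + i)) (fun u : Fin r → ℤ =>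
          Pool.Agent.TH869.SQ.ind1 (I i)
            (angle (MvPolynomial.eval u A) (MvPolynomial.eval u B) (Pool.Agent.TH869.SQ.pr (k + i)))) := by
      unfold boxModel proportion Pool.Agent.U471.DQ.mn Pool.Agent.U471.DQ.rs Pool.Agent.U471.DQ.bx Pool.Agent.TH869.SQ.ind1
        Pool.Agent.TH869.SQ.pr
      refine sum_congr rfl fun k _ => prod_congr rfl fun i _ => ?_
      rw [sum_boole]
    rw [e1, e2]
    exact h
  · intro r d f h
    obtain ⟨β, h1, _, h3⟩ := Pool.Agent.U471.DQ.gen_of_type d f h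
    exact ⟨β, h1, h3⟩

end Pool.Agent.Results.MP_29be01_nt.RealPolynomialFamilies
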