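import Pool.Agent.U349.ST.Trace

/-!
# Consecutive Frobenius angles: the product Sato-Tate law is a law of sign correlations

`E` is an elliptic curve over `ℚ` and `a k` its trace `a_p` for the prime `p` with the index `k`
(`a k = 0` at the bad primes), so that `|a k| ≤ 2 √p`. The integers `tr (a k) p m`, `m ≥ 0`, are defined
by `tr 0 = 2`, `tr 1 = a k`, `tr (m + 2) = a k * tr (m + 1) - p * tr m`; at the good primes
`tr m = p ^ m + 1 - #E(F_{p^m})` (for `m ≥ 1`).
-/

set_option autoImplicit false

namespace Pool.Agent.Results.MP_29be01_nt.SignCorrelations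

open Finset Filter Topology
open Pool.Agent.U349.ST (tr)

/-- the prime with the index `k` (`p 0 = 2`) -/
noncomputable def p (k : ℕ) : ℕ := Nat.nth Nat.Prime k

/-- the angle `x ∈ [0, 1]` with `a = 2 √p cos (π x)` -/
noncomputable def x (a : ℤ) (p : ℕ) : ℝ := Real.arccos (a / (2 * Real.sqrt p)) / Real.pi

/-- the mean value of the sign of `cos (π m x)` for the Sato-Tate measure -/
noncomputable def b (m : ℕ) : ℝ := if m = 0 then 1 else if m = 2 then -(2 / Real.pi) else 0

/-- Let `a 0, …, a (s-1)` be the sequences of traces of `s` elliptic curves, not necessarily different,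
and `h 0, …, h (s-1)` shifts (for one curve and `h j = j`: the angles at `s` consecutive primes; for all
`h j = 0`: the angles of `s` curves at the same prime). The vectors of the angles of the `j`-th curve at
the prime with the index `k + h j` are equidistributed with respect to `μ_ST^{[s]}` if and only if for
all `m 0, …, m (s-1) ≥ 0` the mean value over `k < K` of the product of the signs of the numbers `tr (m j)`
for the `j`-th curve and the prime with the index `k + h j` tends to `b (m 0) ⋯ b (m (s-1))`. -/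
theorem result (s : ℕ) (a : Fin s → ℕ → ℤ) (h : Fin s → ℕ) (ha : ∀ j k, a j k ^ 2 ≤ 4 * (p k : ℤ)) :
    (∀ α β : Fin s → ℝ, (∀ j, 0 ≤ α j ∧ α j ≤ β j ∧ β j ≤ 1) →
      Tendsto (fun K : ℕ => (#{k ∈ range K | ∀ j, α j ≤ x (a j (k + h j)) (p (k + h j)) ∧
        x (a j (k + h j)) (p (k + h j)) ≤ β j} : ℝ) / K) atTop
        (𝓝 (∏ j, ∫ t in α j..β j, 2 * Real.sin (Real.pi * t) ^ 2))) ↔
    ∀ m : Fin s → ℕ, Tendsto (fun K : ℕ => (∑ k ∈ range K, ∏ j,
      (((tr (a j (k + h j)) (p (k + h j)) (m j)).sign : ℤ) : ℝ)) / K) atTop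
      (𝓝 (∏ j, b (m j))) :=
  Pool.Agent.U349.ST.consecutive a h ha

end Pool.Agent.Results.MP_29be01_nt.SignCorrelations
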